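import Pool.Agent.H5.FR.Stmts

set_option autoImplicit false

namespace Pool.Agent.H5.FR

open Finset

private lemma pw_card {V : Type} (M : ℕ) (c : Finset V) : (pw M c).card ≤ 2 ^ M := by
  unfold pw
  split_ifs with h
  · rw [card_powerset]
    exact Nat.pow_le_pow_right (by norm_num) h
  · simp [Nat.one_le_two_pow]

theorem cnt_thm : CNTStmt := by
  intro V _ _ b r M h
  induction h with
  | zero =>
    intro A B
    have h1 : (Fam M 0 A B).card ≤ (pw M A.1 ×ˢ pw M B.1).card := card_image_le
    rw [card_product] at h1
    refine h1.trans ?_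
    have h2 := Nat.mul_le_mul (pw_card M A.1) (pw_card M B.1)
    refine h2.trans ?_
    rw [pow_zero, one_mul, two_mul, pow_add]
  | succ h ih =>
    intro A B
    have h1 : (Fam M (h + 1) A B).card ≤ (univ : Finset (Fin r × Fin r ×
        Finset (Bool × Fin b) × (Bool × Fin b) × (Bool × Fin b))).card *
        ((r ^ 2 * 2 ^ (2 * b) * (2 * b) ^ 2) ^ h * 2 ^ (2 * M)) := by
      refine card_biUnion_le_card_mul _ _ _ ?_
      intro p _
      exact card_image_le.trans (ih _ _)
    refine h1.trans ?_
    have h2 : (univ : Finset (Fin r × Fin r × Finset (Bool × Fin b) × (Bool × Fin b) ×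
        (Bool × Fin b))).card = r ^ 2 * 2 ^ (2 * b) * (2 * b) ^ 2 := by
      simp only [card_univ, Fintype.card_prod, Fintype.card_fin, Fintype.card_finset,
        Fintype.card_bool]
      ring
    rw [h2, pow_succ]
    apply le_of_eq
    ring

end Pool.Agent.H5.FR
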